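import Pool.Agent.Helper70.KN.Goals4

namespace Pool.Agent.Helper84.KN.RH

open Pool.Agent.Helper70.KN Set

theorem t : S_RH := by
  intro N V L ω h
  obtain ⟨-, -, hω, hLc, hLn, hw, hnew⟩ := h
  have hcont : ∀ x : Fin N → ℝ, Continuous fun w : Fin N → ℝ => dt w x := by
    intro x
    unfold dt
    exact continuous_finsetSum _ fun j _ => (continuous_apply j).mul continuous_const
  have hcomp : ∀ x, IsCompact ((fun w => dt w x) '' L) := fun x => hLc.image (hcont x)
  have h1 : ∀ x, ∃ w ∈ L, dt w x = rho L x := fun x => (hcomp x).sInf_mem (hLn.image _)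
  have h2 : ∀ x, ∀ w ∈ L, rho L x ≤ dt w x := fun x w hwL =>
    csInf_le (hcomp x).bddBelow (mem_image_of_mem _ hwL)
  have hscale : ∀ (w x : Fin N → ℝ) (c : ℝ), dt w (fun j => c * x j) = c * dt w x := by
    intro w x c
    unfold dt
    rw [Finset.mul_sum]
    exact Finset.sum_congr rfl fun j _ => by ring
  refine ⟨h1, h2, fun x hx => ?_, fun x c hc => ?_, fun x y hxy => ?_, fun x hx => ?_, ?_⟩
  · rw [hnew]
    constructor
    · rintro ⟨-, h3⟩
      obtain ⟨w, hwL, h4⟩ := h1 x
      rw [← h4]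
      exact h3 w hwL
    · intro h3
      exact ⟨hx, fun w hwL => h3.trans (h2 x w hwL)⟩
  · refine le_antisymm ?_ ?_
    · obtain ⟨w, hwL, h4⟩ := h1 x
      rw [← h4, ← hscale]
      exact h2 _ w hwL
    · obtain ⟨w, hwL, h4⟩ := h1 fun j => c * x j
      rw [← h4, hscale]
      exact mul_le_mul_of_nonneg_left (h2 x w hwL) hc
  · obtain ⟨w, hwL, h4⟩ := h1 y
    rw [← h4]
    refine (h2 x w hwL).trans ?_
    exact Finset.sum_le_sum fun j _ => mul_le_mul_of_nonneg_left (hxy j) (hw w hwL j).1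
  · obtain ⟨w, hwL, h4⟩ := h1 x
    rw [← h4]
    exact Finset.sum_nonneg fun j _ => mul_nonneg (hw w hwL j).1 (hx j)
  · have hK : 0 ≤ (N : ℝ) * ω := by positivity
    refine (LipschitzWith.of_le_add_mul ⟨(N : ℝ) * ω, hK⟩ fun x y => ?_).continuous
    obtain ⟨w, hwL, h4⟩ := h1 y
    rw [← h4]
    refine (h2 x w hwL).trans ?_
    change dt w x ≤ dt w y + (N : ℝ) * ω * dist x y
    have h5 : dt w x - dt w y ≤ ∑ _j : Fin N, ω * dist x y := by
      unfold dt
      rw [← Finset.sum_sub_distrib]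
      refine Finset.sum_le_sum fun j _ => ?_
      have h6 : x j - y j ≤ dist x y := (le_abs_self _).trans (dist_le_pi_dist x y j)
      have h7 := (hw w hwL j).1
      have h8 := (hw w hwL j).2
      have h9 : 0 ≤ dist x y := dist_nonneg
      calc w j * x j - w j * y j = w j * (x j - y j) := by ring
        _ ≤ w j * dist x y := mul_le_mul_of_nonneg_left h6 h7
        _ ≤ ω * dist x y := mul_le_mul_of_nonneg_right h8 h9
    rw [Finset.sum_const, Finset.card_univ, Fintype.card_fin, nsmul_eq_mul] at h5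
    linarith

end Pool.Agent.Helper84.KN.RH
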